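import Pool.Agent.Lib.LD.Def
import Pool.Agent.Lib.H85TF.P2

/-!
# LD9, file Cr: covers of a reduction give covers of the graph (S2)
-/

set_option autoImplicit false

namespace LD

open Finset H98M H85TF

variable {V : Type*} [DecidableEq V]

/-- One side of a separation, together with the two vertices, is connected. -/
theorem side_conn {E : Finset (Sym2 V)} {Y : Finset V} {x y : V} {P Q : Finset V} (hT : TCY E Y)
    (hs : Sep E Y x y P Q) : ¬ Disc (insert x (insert y Q)) E := by
  rintro ⟨C, D, hC, hD, hdis, hCD, hno⟩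
  have hY : ∀ v, v ∈ Y ↔ v = x ∨ v = y ∨ v ∈ P ∨ v ∈ Q := by
    intro v
    rw [← hs.eq]
    simp only [mem_insert, mem_union]
  have hmem : ∀ v, v ∈ C ∨ v ∈ D ↔ v = x ∨ v = y ∨ v ∈ Q := by
    intro v
    rw [← mem_union, hCD]
    simp only [mem_insert]
  -- a set `S` inside `Q`, without edges to the rest of `Q` and to one of the two vertices
  have key : ∀ C D : Finset V, C.Nonempty → Disjoint C D → C ∪ D = insert x (insert y Q) →
      (∀ a ∈ C, ∀ b ∈ D, s(a, b) ∉ E) → x ∉ C → y ∉ C → False := by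
    intro C D hC hdis hCD hno hx hy
    have hCQ : ∀ a ∈ C, a ∈ Q := by
      intro a ha
      have h1 : a ∈ insert x (insert y Q) := hCD ▸ mem_union_left _ ha
      simp only [mem_insert] at h1
      rcases h1 with rfl | rfl | h1
      · exact absurd ha hx
      · exact absurd ha hy
      · exact h1
    refine hT.conn ⟨C, Y \ C, hC, ?_, disjoint_sdiff, union_sdiff_of_subset ?_, ?_⟩
    · exact ⟨x, mem_sdiff.2 ⟨(hY x).2 (Or.inl rfl), hx⟩⟩
    · intro a ha
      exact (hY a).2 (Or.inr (Or.inr (Or.inr (hCQ a ha))))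
    · intro a ha b hb
      rw [mem_sdiff] at hb
      rcases (hY b).1 hb.1 with rfl | rfl | h1 | h1
      · refine hno a ha b ?_
        have h2 : b ∈ C ∪ D := by rw [hCD]; simp
        rcases mem_union.1 h2 with h3 | h3
        · exact absurd h3 hb.2
        · exact h3
      · refine hno a ha b ?_
        have h2 : b ∈ C ∪ D := by rw [hCD]; simp
        rcases mem_union.1 h2 with h3 | h3
        · exact absurd h3 hb.2
        · exact h3
      · rw [Sym2.eq_swap]
        exact hs.noE b h1 a (hCQ a ha)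
      · refine hno a ha b ?_
        have h2 : b ∈ C ∪ D := by rw [hCD]; simp [h1]
        rcases mem_union.1 h2 with h3 | h3
        · exact absurd h3 hb.2
        · exact h3
  -- `x` and `y` on different sides: the part of `C` off `x` is separated by `x`
  have key2 : ∀ (x y : V) (P : Finset V) (C D : Finset V), Sep E Y x y P Q →
      Disjoint C D → C ∪ D = insert x (insert y Q) →
      (∀ a ∈ C, ∀ b ∈ D, s(a, b) ∉ E) → x ∈ C → y ∈ D → ∀ a ∈ C, a = x := by
    intro x y P C D hs hdis hCD hno hx hy a ha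
    by_contra hax
    have hY : ∀ v, v ∈ Y ↔ v = x ∨ v = y ∨ v ∈ P ∨ v ∈ Q := by
      intro v
      rw [← hs.eq]
      simp only [mem_insert, mem_union]
    have hyC : y ∉ C := fun h => disjoint_left.1 hdis h hy
    have hCQ : ∀ a ∈ C, a ≠ x → a ∈ Q := by
      intro a ha hax
      have h1 : a ∈ insert x (insert y Q) := hCD ▸ mem_union_left _ ha
      simp only [mem_insert] at h1
      rcases h1 with rfl | rfl | h1
      · exact absurd rfl hax
      · exact absurd ha hyC
      · exact h1
    refine hT.conn' x ((hY x).2 (Or.inl rfl)) ⟨C.erase x, (Y.erase x) \ (C.erase x), ⟨a, ?_⟩, ⟨y, ?_⟩,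
      disjoint_sdiff, union_sdiff_of_subset ?_, ?_⟩
    · exact mem_erase.2 ⟨hax, ha⟩
    · refine mem_sdiff.2 ⟨mem_erase.2 ⟨hs.ne.symm, (hY y).2 (Or.inr (Or.inl rfl))⟩, fun h => ?_⟩
      exact hyC (mem_of_mem_erase h)
    · intro b hb
      rw [mem_erase] at hb ⊢
      exact ⟨hb.1, (hY b).2 (Or.inr (Or.inr (Or.inr (hCQ b hb.2 hb.1))))⟩
    · intro a ha b hb
      rw [mem_erase] at ha
      rw [mem_sdiff, mem_erase] at hb
      have hbC : b ∉ C := fun h => hb.2 (mem_erase.2 ⟨hb.1.1, h⟩)
      rcases (hY b).1 hb.1.2 with h1 | h1 | h1 | h1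
      · exact absurd h1 hb.1.1
      · rw [h1]
        exact hno a ha.2 y hy
      · rw [Sym2.eq_swap]
        exact hs.noE b h1 a (hCQ a ha.2 ha.1)
      · refine hno a ha.2 b ?_
        have h2 : b ∈ C ∪ D := by rw [hCD]; simp [h1]
        rcases mem_union.1 h2 with h3 | h3
        · exact absurd h3 hbC
        · exact h3
  have hno' : ∀ a ∈ D, ∀ b ∈ C, s(a, b) ∉ E := fun a ha b hb => by
    rw [Sym2.eq_swap]
    exact hno b hb a ha
  have hDC : D ∪ C = insert x (insert y Q) := by rw [union_comm]; exact hCD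
  obtain ⟨q, hq⟩ := hs.Q0
  have hqx : q ≠ x := fun h => hs.xQ (h ▸ hq)
  have hqy : q ≠ y := fun h => hs.yQ (h ▸ hq)
  have hxy' : insert y (insert x Q) = insert x (insert y Q) := Finset.insert_comm _ _ _
  have hq' := (hmem q).2 (Or.inr (Or.inr hq))
  rcases (hmem x).2 (Or.inl rfl) with hx | hx
  · rcases (hmem y).2 (Or.inr (Or.inl rfl)) with hy | hy
    · exact key D C hD hdis.symm hDC hno' (fun h => disjoint_left.1 hdis hx h)
        (fun h => disjoint_left.1 hdis hy h)
    · rcases hq' with h1 | h1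
      · exact hqx (key2 x y P C D hs hdis hCD hno hx hy q h1)
      · exact hqy (key2 y x P D C hs.flip hdis.symm (hDC.trans hxy'.symm) hno' hy hx q h1)
  · rcases (hmem y).2 (Or.inr (Or.inl rfl)) with hy | hy
    · rcases hq' with h1 | h1
      · exact hqy (key2 y x P C D hs.flip hdis (hCD.trans hxy'.symm) hno hy hx q h1)
      · exact hqx (key2 x y P D C hs hdis.symm hDC hno' hx hy q h1)
    · exact key C D hC hdis hCD hno (fun h => disjoint_left.1 hdis h hx)
        (fun h => disjoint_left.1 hdis h hy)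

/-- (S2) -/
theorem cov_red {E : Finset (Sym2 V)} {Y : Finset V} {x y : V} {P Q A : Finset V} (hT : TCY E Y)
    (hs : Sep E Y x y P Q) (h : Cov (red E Y x y Q) A) : Cov E A := by
  obtain ⟨F, hF, hdeg, hA⟩ := h
  have hsub : ∀ e ∈ F, e ≠ s(x, y) → e ∈ E ∧ e ∈ (Y \ Q).sym2 := by
    intro e he hne
    have h1 := hF he
    unfold red at h1
    rcases mem_insert.1 h1 with h2 | h2
    · exact absurd h2 hne
    · exact mem_inter.1 h2
  by_cases hxyF : s(x, y) ∈ F
  swap
  · exact ⟨F, fun e he => (hsub e he (fun h => hxyF (h ▸ he))).1, hdeg, hA⟩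
  obtain ⟨p, hp, hpU⟩ := path_of_not_disc (side_conn hT hs) (mem_insert_self _ _)
    (mem_insert_of_mem (mem_insert_self _ _)) (b := x) (d := y)
  have key := dg_erase hxyF
  have hdx : dg F x = 2 := by
    have := dg_pos hxyF
    rcases hdeg x with h1 | h1 <;> omega
  have hdy : dg F y = 2 := by
    have := dg_pos' hxyF
    rcases hdeg y with h1 | h1 <;> omega
  have kx := key x
  rw [if_pos (Or.inl rfl)] at kx
  have ky := key y
  rw [if_pos (Or.inr rfl)] at ky
  have ko : ∀ v, v ≠ x → v ≠ y → dg F v = dg (F.erase s(x, y)) v := by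
    intro v h1 h2
    have := key v
    rwa [if_neg (by push Not; exact ⟨h1, h2⟩), add_zero] at this
  obtain ⟨F', hF', h1, h2, h3, h4⟩ := addPath p hp (F.erase s(x, y))
    (fun e he => (hsub e (mem_of_mem_erase he) (mem_erase.1 he).1).1) hs.ne (notMem_erase _ _)
    (by omega) (by omega) (fun v hv1 hv2 => by rw [← ko v hv1 hv2]; exact hdeg v)
    (by
      intro r hr hrx hry
      have hrQ : r ∈ Q := by
        have h5 := hpU r hr
        simp only [mem_insert] at h5
        rcases h5 with h5 | h5 | h5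
        · exact absurd h5 hrx
        · exact absurd h5 hry
        · exact h5
      unfold dg
      rw [card_eq_zero, filter_eq_empty_iff]
      intro e he hre
      have h5 := (hsub e (mem_of_mem_erase he) (mem_erase.1 he).1).2
      rw [mem_sym2_iff] at h5
      exact (mem_sdiff.1 (h5 r hre)).2 hrQ)
  refine ⟨F', hF', h1, fun v hv => ?_⟩
  by_cases h5 : v = x
  · rw [h5]; exact h2
  · by_cases h6 : v = y
    · rw [h6]; exact h3
    · exact h4 v (by rw [← ko v h5 h6]; exact hA v hv)

end LD
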